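import Pool.Agent.helper12.TY.Spec

/-! Row ty:YJC (MP_baa4d7_al): `A` cyclic of order prime to `p`. -/

set_option autoImplicit false

namespace Pool.Agent.TY

open Pool.Agent.helper58.DC Pool.Agent.DI Pool.Agent.GR Pool.Agent.OB Pool.Agent.TZ

theorem YJC (hYIR : YIR_stmt) (hYCM : YCM_stmt) (hYJ1 : YJ1_stmt) (hRE : RE_stmt) (hST : ST_stmt)
    (hFN : FN_stmt) : YJC_stmt := by
  intro p c M hS G E A _ _ _ _ _ X hcyc hl hO χ hχ D x hD z hz hzc hzd
  have hp : Fact p.Prime := ⟨hS.pr⟩
  suffices h : ∀ n : ℕ, ∀ (E A : Type) [Group E] [Group A] [Finite E] (X : Extension G E A), Nat.card A = n →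
      IsCyclic A → ¬ p ∣ Nat.card A →
      (p : ℤ) ^ (c + 1) ∣ (J2 (Nat.card A) : ℤ) * aS X p M χ ⊤ from h _ E A X rfl hcyc hl
  intro n
  induction n using Nat.strong_induction_on with
  | _ n ih =>
    intro E A _ _ _ X hn hcyc hl
    have hfA : Finite A := Finite.of_surjective X.proj X.proj_surjective
    by_cases hst : Stable X M χ
    · classical
      have h0 := hYIR p c M hS G E A X hcyc hl hO χ hχ hst D x hD z hz hzc hzd
      rw [hYCM A (aS X p M χ)] at h0
      have : Fintype (Subgroup A) := Fintype.ofFinite _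
      rw [finsum_eq_sum_of_fintype, ← Finset.add_sum_erase _ _ (Finset.mem_univ (⊤ : Subgroup A))] at h0
      have h1 : (p : ℤ) ^ (c + 1) ∣ ∑ U ∈ (Finset.univ : Finset (Subgroup A)).erase ⊤,
          (Nat.card {x : A × A // Subgroup.closure {x.1, x.2} = U} : ℤ) *
            ∑ᶠ V : {V : Subgroup A // U ≤ V}, aS X p M χ V.1 := by
        refine Finset.dvd_sum fun U hU => ?_
        have hU' : U ≠ ⊤ := Finset.ne_of_mem_erase hU
        have : Fintype {V : Subgroup A // U ≤ V} := Fintype.ofFinite _
        have h1 : ∑ᶠ V : {V : Subgroup A // U ≤ V}, aS X p M χ V.1 =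
            aS (resE X U) p M χ ⊤ := by
          unfold aS
          rw [finsum_eq_sum_of_fintype, ← finsum_sum_comm]
          · refine finsum_congr fun d => ?_
            rw [hRE G E A X p M χ hχ d U, finsum_eq_sum_of_fintype]
          · intro V _
            exact hFN G E A X p M χ V.1
        rw [h1]
        have h2 : Nat.card U < n := by
          rw [← hn]
          refine lt_of_le_of_ne (Nat.le_of_dvd Nat.card_pos (Subgroup.card_subgroup_dvd_card U)) ?_
          intro h3
          exact hU' (Subgroup.eq_top_of_card_eq U h3)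
        have hUc : IsCyclic U := inferInstance
        rw [hYJ1 A U hUc]
        exact ih (Nat.card U) h2 (U.comap X.proj) U (resE X U) rfl hUc
          fun h4 => hl (h4.trans (Subgroup.card_subgroup_dvd_card U))
      have h2 := (Int.dvd_add_left h1).1 h0
      have h3 : IsCyclic (⊤ : Subgroup A) := inferInstance
      rw [hYJ1 A ⊤ h3, Subgroup.card_top] at h2
      have h4 : ∑ᶠ V : {V : Subgroup A // ⊤ ≤ V}, aS X p M χ V.1 = aS X p M χ ⊤ := by
        have h5 : ∀ V : {V : Subgroup A // ⊤ ≤ V}, V = ⟨⊤, le_rfl⟩ := by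
          rintro ⟨V, hV⟩
          simpa using hV
        rw [finsum_eq_single _ (⟨⊤, le_rfl⟩ : {V : Subgroup A // ⊤ ≤ V})]
        intro V hV
        exact absurd (h5 V) hV
      rw [h4] at h2
      exact h2
    · have h1 : aS X p M χ ⊤ = 0 := by
        unfold aS
        have h2 : ∀ d : ℤ, altSum X p M χ d ⊤ = 0 := by
          intro d
          by_contra h2
          exact hst (hST G E A X p M χ hχ d h2)
        simp only [h2]
        exact finsum_zero
      rw [h1, mul_zero]
      exact dvd_zero _

end Pool.Agent.TY
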